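import Mathlib

namespace Pool.Agent.Lib.MP_cdeac6_an

open Set Filter Topology MeasureTheory intervalIntegral

lemma second_deriv_nonneg {f f' : ℝ → ℝ} {a c : ℝ} (hmin : IsLocalMin f a)
    (hf : ∀ᶠ s in 𝓝 a, HasDerivAt f (f' s) s) (hf' : HasDerivAt f' c a) : 0 ≤ c := by
  by_contra hc
  have hc' : c < 0 := not_le.1 hc
  have e : deriv f =ᶠ[𝓝 a] f' := hf.mono fun s hs => hs.deriv
  have h0 : deriv f a = 0 := hmin.deriv_eq_zero
  have h2 : deriv (deriv f) a = c := by rw [e.deriv_eq, hf'.deriv]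
  have hmax := isLocalMax_of_deriv_deriv_neg (f := f) (by rw [h2]; exact hc') h0
    hf.self_of_nhds.continuousAt
  have hconst : f =ᶠ[𝓝 a] fun _ => f a := by
    filter_upwards [hmin, hmax] with s h1 h2 using le_antisymm h2 h1
  have h3 : deriv f =ᶠ[𝓝 a] fun _ => 0 := by
    have := hconst.deriv
    simpa using this
  have h4 : deriv (deriv f) a = 0 := by rw [h3.deriv_eq]; simp
  linarith

lemma weak_min {K U : Set (ℝ × ℝ)} (hK : IsCompact K) (hU : IsOpen U) (hUK : U ⊆ K)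
    {ε : ℝ} {φ φx φz φxx φzz : ℝ × ℝ → ℝ} (hc : ContinuousOn φ K)
    (hx : ∀ p ∈ U, HasDerivAt (fun s => φ (s, p.2)) (φx p) p.1)
    (hz : ∀ p ∈ U, HasDerivAt (fun s => φ (p.1, s)) (φz p) p.2)
    (hxx : ∀ p ∈ U, HasDerivAt (fun s => φx (s, p.2)) (φxx p) p.1)
    (hzz : ∀ p ∈ U, HasDerivAt (fun s => φz (p.1, s)) (φzz p) p.2)
    (heq : ∀ p ∈ U, ε ^ 2 * φxx p + φzz p = 0)
    (hb : ∀ p ∈ K \ U, 0 ≤ φ p) : ∀ p ∈ K, 0 ≤ φ p := by
  intro p0 hp0
  by_contra hneg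
  have hneg' : φ p0 < 0 := not_le.1 hneg
  obtain ⟨R, hR⟩ := (hK.image (f := fun p : ℝ × ℝ => p.2 ^ 2) (by fun_prop)).bddAbove
  have hR' : ∀ p ∈ K, p.2 ^ 2 ≤ R := fun p hp => hR ⟨p, hp, rfl⟩
  have hR0 : 0 ≤ R := (sq_nonneg _).trans (hR' p0 hp0)
  set δ : ℝ := -φ p0 / (R + 1) with hδ
  have hδ0 : 0 < δ := div_pos (by linarith) (by linarith)
  have hδ1 : δ * (R + 1) = -φ p0 := by rw [hδ]; field_simp
  set Φ : ℝ × ℝ → ℝ := fun p => φ p + δ * (R - p.2 ^ 2) with hΦ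
  have hΦc : ContinuousOn Φ K := hc.add (by fun_prop)
  obtain ⟨q, hqK, hq⟩ := hK.exists_isMinOn ⟨p0, hp0⟩ hΦc
  have hq0 : Φ q < 0 := by
    have h1 : Φ q ≤ Φ p0 := hq hp0
    have h2 : Φ p0 < 0 := by
      simp only [hΦ]; nlinarith [sq_nonneg p0.2]
    linarith
  have hqU : q ∈ U := by
    by_contra h
    have h1 := hb q ⟨hqK, h⟩
    have h2 := mul_nonneg hδ0.le (sub_nonneg.2 (hR' q hqK))
    simp only [hΦ] at hq0
    linarith
  have hloc : IsLocalMin Φ q := hq.isLocalMin (mem_of_superset (hU.mem_nhds hqU) hUK)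
  have c1 : Continuous fun s : ℝ => (s, q.2) := by fun_prop
  have c2 : Continuous fun s : ℝ => (q.1, s) := by fun_prop
  have n1 : ∀ᶠ s in 𝓝 q.1, (s, q.2) ∈ U := c1.continuousAt.eventually (hU.mem_nhds hqU)
  have n2 : ∀ᶠ s in 𝓝 q.2, (q.1, s) ∈ U := c2.continuousAt.eventually (hU.mem_nhds hqU)
  have l1 : IsLocalMin (fun s => Φ (s, q.2)) q.1 :=
    IsLocalMin.comp_continuous (g := fun s : ℝ => (s, q.2)) (b := q.1) hloc c1.continuousAt
  have l2 : IsLocalMin (fun s => Φ (q.1, s)) q.2 :=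
    IsLocalMin.comp_continuous (g := fun s : ℝ => (q.1, s)) (b := q.2) hloc c2.continuousAt
  have a1 : 0 ≤ φxx q := second_deriv_nonneg l1 (f' := fun s => φx (s, q.2))
    (n1.mono fun s hs => (hx _ hs).add_const (δ * (R - q.2 ^ 2))) (hxx q hqU)
  have a2 : 0 ≤ φzz q - δ * 2 := second_deriv_nonneg l2 (f' := fun s => φz (q.1, s) - δ * (2 * s))
    (n2.mono fun s hs => by
      have := (hz _ hs).add (((hasDerivAt_pow 2 s).const_sub R).const_mul δ)
      exact this.congr_deriv (by simp; ring))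
    (by
      have := (hzz q hqU).sub (((hasDerivAt_id q.2).const_mul 2).const_mul δ)
      exact this.congr_deriv (by simp))
  have := heq q hqU
  nlinarith [mul_nonneg (sq_nonneg ε) a1]

lemma cont_param {X : Type*} [TopologicalSpace X] [FirstCountableTopology X] {f : X → ℝ → ℝ}
    (hf : Continuous f.uncurry) {s t : X → ℝ} (hs : Continuous s) (ht : Continuous t) :
    Continuous fun x => ∫ y in s x..t x, f x y := by
  have h1 := continuous_parametric_intervalIntegral_of_continuous (μ := volume) (a₀ := 0) hf hs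
  have h2 := continuous_parametric_intervalIntegral_of_continuous (μ := volume) (a₀ := 0) hf ht
  refine (h2.sub h1).congr fun x => ?_
  have hc : Continuous (f x) := hf.comp (Continuous.prodMk_right x)
  exact integral_interval_sub_left (hc.intervalIntegrable _ _) (hc.intervalIntegrable _ _)

lemma rect_sub {G1 G2 D1 D2 : ℝ × ℝ → ℝ} {a b c d : ℝ} (hab : a ≤ b) (hcd : c ≤ d)
    (c1 : ContinuousOn D1 (Icc a b ×ˢ Icc c d)) (c2 : ContinuousOn D2 (Icc a b ×ˢ Icc c d))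
    (h1 : ∀ p ∈ Icc a b ×ˢ Icc c d, HasDerivAt (fun s => G1 (s, p.2)) (D1 p) p.1)
    (h2 : ∀ p ∈ Icc a b ×ˢ Icc c d, HasDerivAt (fun s => G2 (p.1, s)) (D2 p) p.2) :
    ∫ x in a..b, ∫ y in c..d, (D1 (x, y) + D2 (x, y)) =
      (∫ y in c..d, (G1 (b, y) - G1 (a, y))) + ∫ x in a..b, (G2 (x, d) - G2 (x, c)) := by
  have hK : IsCompact (Icc a b ×ˢ Icc c d) := isCompact_Icc.prod isCompact_Icc
  have sub : uIoc a b ×ˢ uIoc c d ⊆ Icc a b ×ˢ Icc c d := by
    rw [uIoc_of_le hab, uIoc_of_le hcd]; exact prod_mono Ioc_subset_Icc_self Ioc_subset_Icc_self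
  have sx : ∀ {D : ℝ × ℝ → ℝ}, ContinuousOn D (Icc a b ×ˢ Icc c d) → ∀ x ∈ Icc a b,
      IntervalIntegrable (fun y => D (x, y)) volume c d := fun hD x hx =>
    (hD.comp (Continuous.prodMk_right x).continuousOn fun y hy => ⟨hx, hy⟩).intervalIntegrable_of_Icc
      hcd
  have sy : ∀ {D : ℝ × ℝ → ℝ}, ContinuousOn D (Icc a b ×ˢ Icc c d) → ∀ y ∈ Icc c d,
      IntervalIntegrable (fun x => D (x, y)) volume a b := fun hD y hy =>
    (hD.comp (Continuous.prodMk_left y).continuousOn fun x hx => ⟨hx, hy⟩).intervalIntegrable_of_Icc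
      hab
  have i1 : IntegrableOn (Function.uncurry fun x y => D1 (x, y)) (uIoc a b ×ˢ uIoc c d) :=
    (c1.integrableOn_compact hK).mono_set sub
  have i2 : IntegrableOn (Function.uncurry fun x y => D2 (x, y)) (uIoc a b ×ˢ uIoc c d) :=
    (c2.integrableOn_compact hK).mono_set sub
  have i12 : IntegrableOn (Function.uncurry fun x y => D1 (x, y) + D2 (x, y))
      (uIoc a b ×ˢ uIoc c d) := ((c1.add c2).integrableOn_compact hK).mono_set sub
  have e1 : ∫ y in c..d, ∫ x in a..b, D1 (x, y) = ∫ y in c..d, (G1 (b, y) - G1 (a, y)) := by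
    refine integral_congr fun y hy => ?_
    rw [uIcc_of_le hcd] at hy
    exact integral_eq_sub_of_hasDerivAt (f := fun s => G1 (s, y))
      (fun x hx => h1 (x, y) ⟨by rwa [uIcc_of_le hab] at hx, hy⟩) (sy c1 y hy)
  have e2 : ∫ x in a..b, ∫ y in c..d, D2 (x, y) = ∫ x in a..b, (G2 (x, d) - G2 (x, c)) := by
    refine integral_congr fun x hx => ?_
    rw [uIcc_of_le hab] at hx
    exact integral_eq_sub_of_hasDerivAt (f := fun s => G2 (x, s))
      (fun y hy => h2 (x, y) ⟨hx, by rwa [uIcc_of_le hcd] at hy⟩) (sx c2 x hx)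
  have j : ∀ {D : ℝ × ℝ → ℝ},
      IntegrableOn (Function.uncurry fun x y => D (x, y)) (uIoc a b ×ˢ uIoc c d) →
      IntervalIntegrable (fun x => ∫ y in c..d, D (x, y)) volume a b := by
    intro D hD
    rw [IntegrableOn, Measure.volume_eq_prod, ← Measure.prod_restrict] at hD
    have := hD.integral_prod_left
    rw [intervalIntegrable_iff]
    simp only [integral_of_le hcd]
    rw [uIoc_of_le hcd] at this
    exact this
  rw [← e1, ← e2, ← intervalIntegral_intervalIntegral_swap i1, ← integral_add (j i1) (j i2)]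
  refine integral_congr fun x hx => ?_
  rw [uIcc_of_le hab] at hx
  exact integral_add (sx c1 x hx) (sx c2 x hx)

/-- Divergence theorem on `[-1,1] × [0,1]`, derivatives only in the open rectangle. -/
lemma rect_div {G1 G2 J D1 D2 : ℝ × ℝ → ℝ} (g1 : Continuous G1) (g2 : Continuous G2)
    (gJ : Continuous J)
    (c1 : ContinuousOn D1 (Ioo (-1) 1 ×ˢ Ioo 0 1)) (c2 : ContinuousOn D2 (Ioo (-1) 1 ×ˢ Ioo 0 1))
    (h1 : ∀ p ∈ Ioo (-1 : ℝ) 1 ×ˢ Ioo (0 : ℝ) 1, HasDerivAt (fun s => G1 (s, p.2)) (D1 p) p.1)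
    (h2 : ∀ p ∈ Ioo (-1 : ℝ) 1 ×ˢ Ioo (0 : ℝ) 1, HasDerivAt (fun s => G2 (p.1, s)) (D2 p) p.2)
    (hJ : ∀ p ∈ Ioo (-1 : ℝ) 1 ×ˢ Ioo (0 : ℝ) 1, D1 p + D2 p = J p) :
    ∫ x in (-1 : ℝ)..1, ∫ y in (0 : ℝ)..1, J (x, y) =
      (∫ y in (0 : ℝ)..1, (G1 (1, y) - G1 (-1, y))) +
        ∫ x in (-1 : ℝ)..1, (G2 (x, 1) - G2 (x, 0)) := by
  set A : ℝ → ℝ := fun δ => ∫ x in (-1 + δ)..(1 - δ), ∫ y in δ..(1 - δ), J (x, y) with hA
  set B : ℝ → ℝ := fun δ => (∫ y in δ..(1 - δ), (G1 (1 - δ, y) - G1 (-1 + δ, y))) +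
    ∫ x in (-1 + δ)..(1 - δ), (G2 (x, 1 - δ) - G2 (x, δ)) with hB
  have cA : Continuous A := by
    refine cont_param (f := fun δ x => ∫ y in δ..(1 - δ), J (x, y)) ?_ (by fun_prop) (by fun_prop)
    exact cont_param (X := ℝ × ℝ) (f := fun p y => J (p.2, y)) (s := fun p => p.1)
      (t := fun p => 1 - p.1) (by fun_prop) (by fun_prop) (by fun_prop)
  have cB : Continuous B := by
    refine Continuous.add ?_ ?_
    · exact cont_param (f := fun δ y => G1 (1 - δ, y) - G1 (-1 + δ, y)) (by fun_prop)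
        (by fun_prop) (by fun_prop)
    · exact cont_param (f := fun δ x => G2 (x, 1 - δ) - G2 (x, δ)) (by fun_prop)
        (by fun_prop) (by fun_prop)
  have hAB : EqOn A B (Ioo 0 (1 / 2)) := by
    intro δ hδ
    have hab : -1 + δ ≤ 1 - δ := by linarith [hδ.2]
    have hcd : δ ≤ 1 - δ := by linarith [hδ.2]
    have sub : Icc (-1 + δ) (1 - δ) ×ˢ Icc δ (1 - δ) ⊆ Ioo (-1 : ℝ) 1 ×ˢ Ioo (0 : ℝ) 1 :=
      prod_mono (Icc_subset_Ioo (by linarith [hδ.1]) (by linarith [hδ.1]))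
        (Icc_subset_Ioo hδ.1 (by linarith [hδ.1]))
    simp only [hA, hB]
    rw [← rect_sub hab hcd (c1.mono sub) (c2.mono sub) (fun p hp => h1 p (sub hp))
      (fun p hp => h2 p (sub hp))]
    refine integral_congr fun x hx => ?_
    rw [uIcc_of_le hab] at hx
    refine integral_congr fun y hy => ?_
    rw [uIcc_of_le hcd] at hy
    exact (hJ (x, y) (sub ⟨hx, hy⟩)).symm
  have h0 := hAB.closure cA cB (show (0 : ℝ) ∈ closure (Ioo 0 (1 / 2)) by
    rw [closure_Ioo (by norm_num)]; exact ⟨le_rfl, by norm_num⟩)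
  simpa [hA, hB] using h0

/-- The comparison argument for the moment equation. -/
lemma ode_bound {γ Z T : ℝ} (hZ : 0 < Z) {m m' P' : ℝ → ℝ}
    (cm : ContinuousOn m (Ico 0 T)) (cm' : ContinuousOn (fun t => γ * m' t) (Ico 0 T))
    (m0 : m 0 = 0) (m0' : γ * m' 0 = 0)
    (dm : ∀ t ∈ Ioo 0 T, HasDerivAt m (m' t) t)
    (dP : ∀ t ∈ Ioo 0 T, HasDerivAt (fun s => γ ^ 2 * m' s + m s) (P' t) t)
    (low : ∀ t ∈ Ico 0 T, -Z ≤ m t)
    (key : ∀ t ∈ Ioo 0 T, m t ≤ Z → P' t ≤ -1) : T ≤ 2 * Z + 2 * γ ^ 2 + 2 := by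
  have cP : ContinuousOn (fun s => γ ^ 2 * m' s + m s + s) (Ico 0 T) := by
    have : (fun s => γ ^ 2 * m' s + m s + s) = fun s => γ * (γ * m' s) + m s + s := by
      funext s; ring
    rw [this]
    exact ((cm'.const_mul γ).add cm).add continuousOn_id
  have step : ∀ t ∈ Ico 0 T, (∀ s ∈ Ioo 0 t, m s ≤ Z) → γ ^ 2 * m' t + m t + t ≤ 0 := by
    intro t ht hs
    have sub : Icc 0 t ⊆ Ico 0 T := Icc_subset_Ico_right ht.2
    have anti := antitoneOn_of_hasDerivWithinAt_nonpos (convex_Icc 0 t) (cP.mono sub)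
      (f' := fun s => P' s + 1)
      (fun s hs' => by
        rw [interior_Icc] at hs' ⊢
        exact ((dP s ⟨hs'.1, hs'.2.trans ht.2⟩).add (hasDerivAt_id s)).hasDerivWithinAt)
      (fun s hs' => by
        rw [interior_Icc] at hs'
        linarith [key s ⟨hs'.1, hs'.2.trans ht.2⟩ (hs s hs')])
    have := anti (left_mem_Icc.2 ht.1) (right_mem_Icc.2 ht.1) ht.1
    simp only [m0] at this
    have e : γ ^ 2 * m' 0 = γ * (γ * m' 0) := by ring
    rw [e, m0'] at this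
    linarith
  have below : ∀ t ∈ Ico 0 T, m t < Z := by
    intro t1 ht1
    by_contra hge
    have sub : Icc 0 t1 ⊆ Ico 0 T := Icc_subset_Ico_right ht1.2
    have hcl : IsClosed (Icc 0 t1 ∩ m ⁻¹' Ici Z) :=
      (cm.mono sub).preimage_isClosed_of_isClosed isClosed_Icc isClosed_Ici
    have hcp : IsCompact (Icc 0 t1 ∩ m ⁻¹' Ici Z) :=
      isCompact_Icc.of_isClosed_subset hcl inter_subset_left
    obtain ⟨t0, ⟨ht0, hm0⟩, hleast⟩ := hcp.exists_isLeast
      ⟨t1, right_mem_Icc.2 ht1.1, not_lt.1 hge⟩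
    have hm0' : Z ≤ m t0 := hm0
    have hpos : 0 < t0 := by
      rcases ht0.1.eq_or_lt with h | h
      · rw [← h, m0] at hm0'; linarith
      · exact h
    have hlt : ∀ s ∈ Ioo 0 t0, m s < Z := fun s hs => by
      by_contra h
      have := hleast ⟨⟨hs.1.le, hs.2.le.trans ht0.2⟩, not_lt.1 h⟩
      linarith [hs.2]
    have h1 := step t0 (sub ht0) fun s hs => (hlt s hs).le
    have hd := dm t0 ⟨hpos, (sub ht0).2⟩
    have h2 : 0 ≤ m' t0 := by
      have ht := (hasDerivAt_iff_tendsto_slope_left_right.1 hd).1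
      refine ge_of_tendsto ht ?_
      filter_upwards [Ioo_mem_nhdsLT hpos] with s hs
      rw [slope_def_field]
      exact div_nonneg_of_nonpos (by linarith [hlt s hs]) (by linarith [hs.2])
    nlinarith [mul_nonneg (sq_nonneg γ) h2]
  by_contra hT
  have hT' : 2 * Z + 2 * γ ^ 2 + 2 < T := not_le.1 hT
  set t := 2 * Z + 2 * γ ^ 2 + 2 with ht
  have ht0 : 0 ≤ t := by positivity
  have sub : Icc 0 t ⊆ Ico 0 T := Icc_subset_Ico_right hT'
  have anti := antitoneOn_of_hasDerivWithinAt_nonpos (convex_Icc 0 t)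
    (f := fun s => γ ^ 2 * m s - Z * s + s ^ 2 / 2)
    ((((cm.mono sub).const_mul _).sub (by fun_prop)).add (by fun_prop))
    (f' := fun s => γ ^ 2 * m' s - Z + s)
    (fun s hs' => by
      rw [interior_Icc] at hs' ⊢
      have := ((((dm s ⟨hs'.1, hs'.2.trans hT'⟩).const_mul (γ ^ 2)).sub
        ((hasDerivAt_id s).const_mul Z)).add ((hasDerivAt_pow 2 s).div_const 2))
      exact (this.congr_deriv (by simp)).hasDerivWithinAt)
    (fun s hs' => by
      rw [interior_Icc] at hs'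
      have hs : s ∈ Ico 0 T := ⟨hs'.1.le, hs'.2.trans hT'⟩
      have := step s hs fun r hr => (below r ⟨hr.1.le, hr.2.trans hs.2⟩).le
      linarith [low s hs])
  have := anti (left_mem_Icc.2 ht0) (right_mem_Icc.2 ht0) ht0
  simp only [m0] at this
  have h3 := low t ⟨ht0, hT'⟩
  have h4 := mul_le_mul_of_nonneg_left h3 (sq_nonneg γ)
  have h5 : t ^ 2 / 2 - Z * t = (γ ^ 2 + 1) * (2 * Z + 2 * γ ^ 2 + 2) := by rw [ht]; ring
  nlinarith [sq_nonneg γ, sq_nonneg (γ ^ 2), mul_nonneg (sq_nonneg γ) hZ.le]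

end Pool.Agent.Lib.MP_cdeac6_an
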