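import Mathlib

namespace Pool.Agent.Lib.MP_cdeac6_an

open Set
open scoped ContDiff

/-- The open region `Ω(u)` between the ground plate `z = -1` and the graph of `u`. -/
def dom (u : ℝ → ℝ) : Set (ℝ × ℝ) := {p | p.1 ∈ Ioo (-1 : ℝ) 1 ∧ -1 < p.2 ∧ p.2 < u p.1}

/-- The closed region, `Ω(u)` together with its boundary. -/
def cdom (u : ℝ → ℝ) : Set (ℝ × ℝ) := {p | p.1 ∈ Icc (-1 : ℝ) 1 ∧ -1 ≤ p.2 ∧ p.2 ≤ u p.1}

/-- `ψ` is the electrostatic potential of the deflection `u`: it is `C²` in `Ω(u)`, it and its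
first derivatives `ψx`, `ψz` extend continuously to the closed region, and it solves the
elliptic boundary value problem. -/
structure IsPotential (ε : ℝ) (u : ℝ → ℝ) (ψ ψx ψz : ℝ × ℝ → ℝ) : Prop where
  smooth : ContDiffOn ℝ 2 ψ (dom u)
  cont : ContinuousOn ψ (cdom u)
  contx : ContinuousOn ψx (cdom u)
  contz : ContinuousOn ψz (cdom u)
  dx : ∀ p ∈ dom u, ψx p = fderiv ℝ ψ p (1, 0)
  dz : ∀ p ∈ dom u, ψz p = fderiv ℝ ψ p (0, 1)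
  pde : ∀ p ∈ dom u, ε ^ 2 * fderiv ℝ ψx p (1, 0) + fderiv ℝ ψz p (0, 1) = 0
  bc : ∀ p ∈ cdom u \ dom u, ψ p = (1 + p.2) / (1 + u p.1)

/-- The electrostatic force `g_ε(u)(x)`. -/
def force (ε : ℝ) (u : ℝ → ℝ) (ψx ψz : ℝ × ℝ → ℝ) (x : ℝ) : ℝ :=
  ε ^ 2 * ψx (x, u x) ^ 2 + ψz (x, u x) ^ 2

/-- The moment of `u(t, ·)` against a test function. -/
noncomputable def moment (u : ℝ → ℝ → ℝ) (φ : ℝ → ℝ) (t : ℝ) : ℝ :=
  ∫ x in (-1 : ℝ)..1, u t x * φ x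

/-- `(u, ψ)` solves the evolution problem with zero initial data on the time interval `[0, T)`;
the plate equation is tested against smooth clamped functions `φ`. -/
structure IsSolutionOn (β τ γ ε lam T : ℝ) (u : ℝ → ℝ → ℝ) (ψ ψx ψz : ℝ → ℝ × ℝ → ℝ) : Prop where
  reg : ∀ t ∈ Ico 0 T, ContDiffOn ℝ 1 (u t) (Icc (-1) 1)
  above : ∀ t ∈ Ico 0 T, ∀ x ∈ Icc (-1 : ℝ) 1, -1 < u t x
  clamped : ∀ t ∈ Ico 0 T, u t (-1) = 0 ∧ u t 1 = 0 ∧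
    derivWithin (u t) (Icc (-1) 1) (-1) = 0 ∧ derivWithin (u t) (Icc (-1) 1) 1 = 0
  init : ∀ x ∈ Icc (-1 : ℝ) 1, u 0 x = 0
  pot : ∀ t ∈ Ico 0 T, IsPotential ε (u t) (ψ t) (ψx t) (ψz t)
  eqn : ∀ φ : ℝ → ℝ, ContDiff ℝ ∞ φ → φ (-1) = 0 → φ 1 = 0 → deriv φ (-1) = 0 → deriv φ 1 = 0 →
    ∃ m' : ℝ → ℝ, ContinuousOn (moment u φ) (Ico 0 T) ∧
      ContinuousOn (fun t => γ * m' t) (Ico 0 T) ∧ γ * m' 0 = 0 ∧
      ∀ t ∈ Ioo 0 T, HasDerivAt (moment u φ) (m' t) t ∧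
        HasDerivAt (fun s => γ ^ 2 * m' s + moment u φ s)
          (-(∫ x in (-1 : ℝ)..1, u t x * (β * iteratedDeriv 4 φ x - τ * iteratedDeriv 2 φ x))
            - lam * ∫ x in (-1 : ℝ)..1, force ε (u t) (ψx t) (ψz t) x * φ x) t

end Pool.Agent.Lib.MP_cdeac6_an
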