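import Pool.Agent.Lib.MP_cdeac6_an.Defs
import Pool.Agent.Lib.MP_cdeac6_an.Calc

namespace Pool.Agent.Lib.MP_cdeac6_an

open Set Filter Topology MeasureTheory intervalIntegral

noncomputable def cl (x : ℝ) : ℝ := max (-1) (min 1 x)
noncomputable def ch (y : ℝ) : ℝ := max 0 (min 1 y)

lemma continuous_cl : Continuous cl := by unfold cl; fun_prop
lemma continuous_ch : Continuous ch := by unfold ch; fun_prop
lemma cl_mem (x : ℝ) : cl x ∈ Icc (-1 : ℝ) 1 :=
  ⟨le_max_left _ _, max_le (by norm_num) (min_le_left _ _)⟩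
lemma ch_mem (x : ℝ) : ch x ∈ Icc (0 : ℝ) 1 :=
  ⟨le_max_left _ _, max_le (by norm_num) (min_le_left _ _)⟩
lemma cl_eq {x : ℝ} (hx : x ∈ Icc (-1 : ℝ) 1) : cl x = x := by
  rw [cl, min_eq_right hx.2, max_eq_right hx.1]
lemma ch_eq {x : ℝ} (hx : x ∈ Icc (0 : ℝ) 1) : ch x = x := by
  rw [ch, min_eq_right hx.2, max_eq_right hx.1]

lemma hasDerivAt_curve {f : ℝ × ℝ → ℝ} {c1 c2 : ℝ → ℝ} {a b s : ℝ}
    (hf : DifferentiableAt ℝ f (c1 s, c2 s)) (h1 : HasDerivAt c1 a s) (h2 : HasDerivAt c2 b s) :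
    HasDerivAt (fun r => f (c1 r, c2 r))
      (a * fderiv ℝ f (c1 s, c2 s) (1, 0) + b * fderiv ℝ f (c1 s, c2 s) (0, 1)) s := by
  have h := hf.hasFDerivAt.comp_hasDerivAt s (h1.prodMk h2)
  refine h.congr_deriv ?_
  have : ((a, b) : ℝ × ℝ) = a • (1, 0) + b • (0, 1) := by simp
  rw [this, map_add, map_smul, map_smul]; simp

lemma hasDerivAt_fst {f : ℝ × ℝ → ℝ} {p : ℝ × ℝ} (hf : DifferentiableAt ℝ f p) :
    HasDerivAt (fun s => f (s, p.2)) (fderiv ℝ f p (1, 0)) p.1 := by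
  simpa using hasDerivAt_curve (c1 := fun s => s) (c2 := fun _ => p.2) (s := p.1) hf
    (hasDerivAt_id' p.1) (hasDerivAt_const _ _)

lemma hasDerivAt_snd {f : ℝ × ℝ → ℝ} {p : ℝ × ℝ} (hf : DifferentiableAt ℝ f p) :
    HasDerivAt (fun s => f (p.1, s)) (fderiv ℝ f p (0, 1)) p.2 := by
  simpa using hasDerivAt_curve (c1 := fun _ => p.1) (c2 := fun s => s) (s := p.2) hf
    (hasDerivAt_const _ _) (hasDerivAt_id' p.2)

def domS (u : ℝ → ℝ) (σ : ℝ) : Set (ℝ × ℝ) :=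
  {p | p.1 ∈ Ioo (-1 : ℝ) 1 ∧ -1 < p.2 ∧ p.2 + σ < u p.1}
def cdomS (u : ℝ → ℝ) (σ : ℝ) : Set (ℝ × ℝ) :=
  {p | p.1 ∈ Icc (-1 : ℝ) 1 ∧ -1 ≤ p.2 ∧ p.2 + σ ≤ u p.1}

lemma domS_zero (u : ℝ → ℝ) : domS u 0 = dom u := by simp [domS, dom]
lemma cdomS_zero (u : ℝ → ℝ) : cdomS u 0 = cdom u := by simp [cdomS, cdom]
lemma domS_sub (u : ℝ → ℝ) (σ : ℝ) : domS u σ ⊆ cdomS u σ := fun _ hp =>
  ⟨Ioo_subset_Icc_self hp.1, hp.2.1.le, hp.2.2.le⟩
lemma dom_sub (u : ℝ → ℝ) : dom u ⊆ cdom u := fun _ hp =>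
  ⟨Ioo_subset_Icc_self hp.1, hp.2.1.le, hp.2.2.le⟩

noncomputable def Phi (u : ℝ → ℝ) (p : ℝ × ℝ) : ℝ × ℝ :=
  (cl p.1, -1 + ch p.2 * (1 + u (cl p.1)))

lemma Phi_eq (u : ℝ → ℝ) {x y : ℝ} (hx : x ∈ Icc (-1 : ℝ) 1) (hy : y ∈ Icc (0 : ℝ) 1) :
    Phi u (x, y) = (x, -1 + y * (1 + u x)) := by simp [Phi, cl_eq hx, ch_eq hy]

section
variable {u : ℝ → ℝ} (hu : ContinuousOn u (Icc (-1) 1))
include hu

lemma cont_uc : Continuous fun x => u (cl x) := hu.comp_continuous continuous_cl cl_mem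

lemma isOpen_domS (σ : ℝ) : IsOpen (domS u σ) := by
  have h := cont_uc hu
  have e : domS u σ = (Prod.fst ⁻¹' Ioo (-1) 1) ∩ ({p : ℝ × ℝ | -1 < p.2} ∩
      {p : ℝ × ℝ | p.2 + σ < u (cl p.1)}) := by
    ext p
    simp only [domS, mem_ofPred_eq, mem_inter_iff, mem_preimage]
    refine and_congr_right fun h => ?_
    rw [cl_eq (Ioo_subset_Icc_self h)]
  rw [e]
  exact (isOpen_Ioo.preimage continuous_fst).inter ((isOpen_lt continuous_const continuous_snd).inter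
    (isOpen_lt (by fun_prop) (h.comp continuous_fst)))

lemma isOpen_dom : IsOpen (dom u) := by rw [← domS_zero]; exact isOpen_domS hu 0

lemma isCompact_cdomS (σ : ℝ) : IsCompact (cdomS u σ) := by
  have h := cont_uc hu
  obtain ⟨M, hM⟩ := (isCompact_Icc.image_of_continuousOn hu).bddAbove
  have e : cdomS u σ = (Prod.fst ⁻¹' Icc (-1) 1) ∩ ({p : ℝ × ℝ | -1 ≤ p.2} ∩
      {p : ℝ × ℝ | p.2 + σ ≤ u (cl p.1)}) := by
    ext p
    simp only [cdomS, mem_ofPred_eq, mem_inter_iff, mem_preimage]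
    refine and_congr_right fun h => ?_
    rw [cl_eq h]
  refine ((isCompact_Icc (a := (-1 : ℝ)) (b := 1)).prod
    (isCompact_Icc (a := (-1 : ℝ)) (b := M - σ))).of_isClosed_subset ?_ ?_
  · rw [e]
    exact (isClosed_Icc.preimage continuous_fst).inter
      ((isClosed_le continuous_const continuous_snd).inter
        (isClosed_le (by fun_prop) (h.comp continuous_fst)))
  · intro p hp
    have := hM ⟨p.1, hp.1, rfl⟩
    exact ⟨hp.1, hp.2.1, by linarith [hp.2.2]⟩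

lemma continuous_Phi : Continuous (Phi u) := by
  have h := cont_uc hu
  have h1 := continuous_cl
  have h2 := continuous_ch
  unfold Phi
  exact (h1.comp continuous_fst).prodMk (continuous_const.add ((h2.comp continuous_snd).mul
    (continuous_const.add (h.comp continuous_fst))))

end

section
variable {u : ℝ → ℝ} (hpos : ∀ x ∈ Icc (-1 : ℝ) 1, -1 < u x)
include hpos

lemma mem_cdom {x y : ℝ} (hx : x ∈ Icc (-1 : ℝ) 1) (hy : y ∈ Icc (0 : ℝ) 1) :
    (x, -1 + y * (1 + u x)) ∈ cdom u := by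
  have h := hpos x hx
  refine ⟨hx, ?_, ?_⟩
  · have : 0 ≤ y * (1 + u x) := mul_nonneg hy.1 (by linarith)
    simp only; linarith
  · have : 0 ≤ (1 - y) * (1 + u x) := mul_nonneg (by linarith [hy.2]) (by linarith)
    simp only; nlinarith

lemma mem_dom {x y : ℝ} (hx : x ∈ Ioo (-1 : ℝ) 1) (hy : y ∈ Ioo (0 : ℝ) 1) :
    (x, -1 + y * (1 + u x)) ∈ dom u := by
  have h := hpos x (Ioo_subset_Icc_self hx)
  refine ⟨hx, ?_, ?_⟩
  · have : 0 < y * (1 + u x) := mul_pos hy.1 (by linarith)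
    simp only; linarith
  · have : 0 < (1 - y) * (1 + u x) := mul_pos (by linarith [hy.2]) (by linarith)
    simp only; nlinarith

lemma Phi_mem (p : ℝ × ℝ) : Phi u p ∈ cdom u := mem_cdom hpos (cl_mem _) (ch_mem _)

end

section
variable {u : ℝ → ℝ} (hu : ContDiffOn ℝ 1 u (Icc (-1) 1)) (hpos : ∀ x ∈ Icc (-1 : ℝ) 1, -1 < u x)
include hu

lemma cont_du : ContinuousOn (derivWithin u (Icc (-1) 1)) (Icc (-1) 1) :=
  hu.continuousOn_derivWithin (uniqueDiffOn_Icc (by norm_num)) le_rfl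

lemma hasDerivAt_u {x : ℝ} (hx : x ∈ Ioo (-1 : ℝ) 1) :
    HasDerivAt u (derivWithin u (Icc (-1) 1) x) x := by
  have hn : Icc (-1 : ℝ) 1 ∈ 𝓝 x := Icc_mem_nhds hx.1 hx.2
  rw [derivWithin_of_mem_nhds hn]
  exact ((hu.contDiffAt hn).differentiableAt one_ne_zero).hasDerivAt

include hpos

lemma cont_comp {F : ℝ × ℝ → ℝ} (hF : ContinuousOn F (cdom u)) :
    Continuous fun p => F (Phi u p) :=
  hF.comp_continuous (continuous_Phi hu.continuousOn) (Phi_mem hpos)

lemma deriv_Phi_fst {F : ℝ × ℝ → ℝ} {x y : ℝ} (hx : x ∈ Ioo (-1 : ℝ) 1) (hy : y ∈ Ioo (0 : ℝ) 1)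
    (hF : DifferentiableOn ℝ F (dom u)) :
    HasDerivAt (fun s => F (Phi u (s, y))) (fderiv ℝ F (Phi u (x, y)) (1, 0) +
      y * derivWithin u (Icc (-1) 1) x * fderiv ℝ F (Phi u (x, y)) (0, 1)) x := by
  have hm := mem_dom hpos hx hy
  have hd := hF.differentiableAt ((isOpen_dom hu.continuousOn).mem_nhds hm)
  have h := hasDerivAt_curve (c1 := fun s => s) (c2 := fun s => -1 + y * (1 + u s)) (s := x) hd
    (hasDerivAt_id' x) ((((hasDerivAt_u hu hx).const_add 1).const_mul y).const_add (-1))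
  rw [Phi_eq u (Ioo_subset_Icc_self hx) (Ioo_subset_Icc_self hy)]
  refine (h.congr_deriv (by ring)).congr_of_eventuallyEq ?_
  filter_upwards [Icc_mem_nhds hx.1 hx.2] with s hs
  rw [Phi_eq u hs (Ioo_subset_Icc_self hy)]

lemma deriv_Phi_snd {F : ℝ × ℝ → ℝ} {x y : ℝ} (hx : x ∈ Ioo (-1 : ℝ) 1) (hy : y ∈ Ioo (0 : ℝ) 1)
    (hF : DifferentiableOn ℝ F (dom u)) :
    HasDerivAt (fun s => F (Phi u (x, s))) ((1 + u x) * fderiv ℝ F (Phi u (x, y)) (0, 1)) y := by
  have hm := mem_dom hpos hx hy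
  have hd := hF.differentiableAt ((isOpen_dom hu.continuousOn).mem_nhds hm)
  have h := hasDerivAt_curve (c1 := fun _ => x) (c2 := fun s => -1 + s * (1 + u x)) (s := y) hd
    (hasDerivAt_const y x) (((hasDerivAt_id' y).mul_const (1 + u x)).const_add (-1))
  rw [Phi_eq u (Ioo_subset_Icc_self hx) (Ioo_subset_Icc_self hy)]
  refine (h.congr_deriv (by ring)).congr_of_eventuallyEq ?_
  filter_upwards [Icc_mem_nhds hy.1 hy.2] with s hs
  rw [Phi_eq u (Ioo_subset_Icc_self hx) hs]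

lemma contOn_fderiv {F : ℝ × ℝ → ℝ} (hF : ContDiffOn ℝ 1 F (dom u)) (v : ℝ × ℝ) :
    ContinuousOn (fun p => fderiv ℝ F (Phi u p) v) (Ioo (-1) 1 ×ˢ Ioo 0 1) := by
  have h := (hF.continuousOn_fderiv_of_isOpen (isOpen_dom hu.continuousOn) le_rfl).clm_apply
    (continuousOn_const (c := v))
  refine h.comp (continuous_Phi hu.continuousOn).continuousOn fun p hp => ?_
  have := Phi_eq u (Ioo_subset_Icc_self hp.1) (Ioo_subset_Icc_self hp.2)
  rw [show Phi u p = _ from this]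
  exact mem_dom hpos hp.1 hp.2

lemma graph_div {F1 F2 I : ℝ × ℝ → ℝ} (c1 : ContinuousOn F1 (cdom u))
    (c2 : ContinuousOn F2 (cdom u)) (cI : ContinuousOn I (cdom u))
    (d1 : ContDiffOn ℝ 1 F1 (dom u)) (d2 : ContDiffOn ℝ 1 F2 (dom u))
    (hdiv : ∀ p ∈ dom u, fderiv ℝ F1 p (1, 0) + fderiv ℝ F2 p (0, 1) = I p)
    (hlat : ∀ z, F1 (1, z) = 0 ∧ F1 (-1, z) = 0) (hbot : ∀ x ∈ Icc (-1 : ℝ) 1, F2 (x, -1) = 0) :
    ∫ x in (-1 : ℝ)..1, ∫ y in (0 : ℝ)..1, (1 + u (cl x)) * I (Phi u (x, y)) =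
      ∫ x in (-1 : ℝ)..1, (F2 (x, u x) - derivWithin u (Icc (-1) 1) x * F1 (x, u x)) := by
  set u' := derivWithin u (Icc (-1) 1) with hu'
  have k1 := cont_comp hu hpos c1
  have k2 := cont_comp hu hpos c2
  have kI := cont_comp hu hpos cI
  have ku : Continuous fun p : ℝ × ℝ => u (cl p.1) := (cont_uc hu.continuousOn).comp continuous_fst
  have ku' : Continuous fun p : ℝ × ℝ => u' (cl p.1) := (cont_uc (cont_du hu)).comp continuous_fst
  have kh : Continuous fun p : ℝ × ℝ => ch p.2 := continuous_ch.comp continuous_snd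
  have f1x := contOn_fderiv hu hpos d1 (1, 0)
  have f1z := contOn_fderiv hu hpos d1 (0, 1)
  have f2z := contOn_fderiv hu hpos d2 (0, 1)
  have key := rect_div (G1 := fun p => (1 + u (cl p.1)) * F1 (Phi u p))
    (G2 := fun p => F2 (Phi u p) - ch p.2 * u' (cl p.1) * F1 (Phi u p))
    (J := fun p => (1 + u (cl p.1)) * I (Phi u p))
    (D1 := fun p => u' (cl p.1) * F1 (Phi u p) + (1 + u (cl p.1)) * (fderiv ℝ F1 (Phi u p) (1, 0) +
      p.2 * u' (cl p.1) * fderiv ℝ F1 (Phi u p) (0, 1)))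
    (D2 := fun p => (1 + u (cl p.1)) * fderiv ℝ F2 (Phi u p) (0, 1) - (u' (cl p.1) * F1 (Phi u p) +
      p.2 * u' (cl p.1) * ((1 + u (cl p.1)) * fderiv ℝ F1 (Phi u p) (0, 1))))
    ((continuous_const.add ku).mul k1) (k2.sub ((kh.mul ku').mul k1))
    ((continuous_const.add ku).mul kI)
    ((ku'.mul k1).continuousOn.add ((continuous_const.add ku).continuousOn.mul
      (f1x.add ((continuous_snd.mul ku').continuousOn.mul f1z))))
    (((continuous_const.add ku).continuousOn.mul f2z).sub ((ku'.mul k1).continuousOn.add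
      ((continuous_snd.mul ku').continuousOn.mul ((continuous_const.add ku).continuousOn.mul f1z))))
    (by
      rintro ⟨x, y⟩ ⟨hx, hy⟩
      have hx' := Ioo_subset_Icc_self hx
      have a1 := deriv_Phi_fst hu hpos hx hy (d1.differentiableOn one_ne_zero)
      have a2 : HasDerivAt (fun s => 1 + u (cl s)) (u' x) x := by
        refine ((hasDerivAt_u hu hx).const_add 1).congr_of_eventuallyEq ?_
        filter_upwards [Icc_mem_nhds hx.1 hx.2] with s hs
        rw [cl_eq hs]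
      refine (a2.mul a1).congr_deriv ?_
      simp only [cl_eq hx', hu'])
    (by
      rintro ⟨x, y⟩ ⟨hx, hy⟩
      have hx' := Ioo_subset_Icc_self hx
      have a1 := deriv_Phi_snd hu hpos hx hy (d1.differentiableOn one_ne_zero)
      have a2 := deriv_Phi_snd hu hpos hx hy (d2.differentiableOn one_ne_zero)
      have a3 : HasDerivAt (fun s => ch s * u' (cl x)) (u' (cl x)) y := by
        refine (((hasDerivAt_id' y).mul_const (u' (cl x))).congr_deriv (one_mul _)).congr_of_eventuallyEq ?_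
        filter_upwards [Icc_mem_nhds hy.1 hy.2] with s hs
        rw [ch_eq hs]
      refine (a2.sub (a3.mul a1)).congr_deriv ?_
      simp only [cl_eq hx', ch_eq (Ioo_subset_Icc_self hy)])
    (by
      rintro ⟨x, y⟩ ⟨hx, hy⟩
      have hm : Phi u (x, y) ∈ dom u := by
        rw [Phi_eq u (Ioo_subset_Icc_self hx) (Ioo_subset_Icc_self hy)]
        exact mem_dom hpos hx hy
      simp only
      rw [← hdiv _ hm]; ring)
  simp only at key
  rw [key]
  have e1 : ∀ y : ℝ, (1 + u (cl 1)) * F1 (Phi u (1, y)) - (1 + u (cl (-1))) * F1 (Phi u (-1, y))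
      = 0 := fun y => by
    have b1 : cl 1 = 1 := cl_eq (by norm_num)
    have b2 : cl (-1) = -1 := cl_eq (by norm_num)
    simp only [Phi, b1, b2, (hlat _).1, (hlat _).2]; ring
  simp only [e1, intervalIntegral.integral_zero, zero_add]
  refine integral_congr fun x hx => ?_
  rw [uIcc_of_le (by norm_num)] at hx
  have b1 : ch 1 = 1 := ch_eq (by norm_num)
  have b0 : ch 0 = 0 := ch_eq (by norm_num)
  simp only [Phi, b1, b0, cl_eq hx, zero_mul, add_zero, hbot x hx, one_mul]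
  ring_nf

lemma top_tangent {ψ ψx ψz : ℝ × ℝ → ℝ} (c : ContinuousOn ψ (cdom u))
    (cx : ContinuousOn ψx (cdom u)) (cz : ContinuousOn ψz (cdom u))
    (d : DifferentiableOn ℝ ψ (dom u))
    (dx : ∀ p ∈ dom u, ψx p = fderiv ℝ ψ p (1, 0)) (dz : ∀ p ∈ dom u, ψz p = fderiv ℝ ψ p (0, 1))
    (top : ∀ x ∈ Icc (-1 : ℝ) 1, ψ (x, u x) = 1) {x : ℝ} (hx : x ∈ Ioo (-1 : ℝ) 1) :
    ψx (x, u x) + derivWithin u (Icc (-1) 1) x * ψz (x, u x) = 0 := by
  set u' := derivWithin u (Icc (-1) 1) with hu'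
  have k := cont_comp hu hpos c
  have kx := cont_comp hu hpos cx
  have kz := cont_comp hu hpos cz
  have ku' : Continuous fun p : ℝ × ℝ => u' (cl p.1) := (cont_uc (cont_du hu)).comp continuous_fst
  set E : ℝ × ℝ → ℝ := fun p => ψx (Phi u p) + p.2 * u' (cl p.1) * ψz (Phi u p) with hE
  have kE : Continuous E := kx.add ((continuous_snd.mul ku').mul kz)
  have step : ∀ b ∈ Ioo (-1 : ℝ) 1, ∫ s in (0 : ℝ)..b, E (s, 1) = 0 := by
    intro b hb
    have sub : uIcc 0 b ⊆ Ioo (-1 : ℝ) 1 := ordConnected_Ioo.uIcc_subset (by norm_num) hb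
    have e : EqOn (fun y => ∫ s in (0 : ℝ)..b, E (s, y))
        (fun y => ψ (Phi u (b, y)) - ψ (Phi u (0, y))) (Ioo 0 1) := by
      intro y hy
      refine integral_eq_sub_of_hasDerivAt (f := fun s => ψ (Phi u (s, y))) (fun s hs => ?_)
        ((kE.comp (Continuous.prodMk_left y)).intervalIntegrable _ _)
      have hs' := sub hs
      have hm : Phi u (s, y) ∈ dom u := by
        rw [Phi_eq u (Ioo_subset_Icc_self hs') (Ioo_subset_Icc_self hy)]
        exact mem_dom hpos hs' hy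
      refine (deriv_Phi_fst hu hpos hs' hy d).congr_deriv ?_
      simp only [hE, dx _ hm, dz _ hm, cl_eq (Ioo_subset_Icc_self hs'), hu']
    have h1 := e.closure
      (cont_param (f := fun y s => E (s, y)) (by fun_prop) continuous_const continuous_const)
      ((k.comp (Continuous.prodMk_right b)).sub (k.comp (Continuous.prodMk_right 0)))
      (show (1 : ℝ) ∈ closure (Ioo 0 1) by
        rw [closure_Ioo (by norm_num)]; exact ⟨by norm_num, le_rfl⟩)
    simp only at h1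
    rw [h1, Phi_eq u (Ioo_subset_Icc_self hb) (by norm_num),
      Phi_eq u (x := 0) (by norm_num) (by norm_num)]
    have t1 := top b (Ioo_subset_Icc_self hb)
    have t0 := top 0 (by norm_num)
    simp only [one_mul, neg_add_cancel_left, t1, t0, sub_self]
  have kE1 : Continuous fun s => E (s, 1) := kE.comp (Continuous.prodMk_left 1)
  have h2 := (kE1.deriv_integral (fun s => E (s, 1)) 0 x)
  have h3 : (fun b => ∫ s in (0 : ℝ)..b, E (s, 1)) =ᶠ[𝓝 x] fun _ => 0 := by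
    filter_upwards [Ioo_mem_nhds hx.1 hx.2] with b hb using step b hb
  rw [h3.deriv_eq, deriv_const] at h2
  have h4 : E (x, 1) = 0 := h2.symm
  simp only [hE] at h4
  rw [Phi_eq u (Ioo_subset_Icc_self hx) (by norm_num), cl_eq (Ioo_subset_Icc_self hx)] at h4
  simpa using h4

end

end Pool.Agent.Lib.MP_cdeac6_an
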