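import Pool.Agent.Lib.MP_cdeac6_an.Potential

namespace Pool.Agent.Lib.MP_cdeac6_an

open Set Filter Topology MeasureTheory intervalIntegral
open scoped ContDiff

noncomputable def eta (x : ℝ) : ℝ := (1 - x ^ 2) ^ 2
noncomputable def eta1 (x : ℝ) : ℝ := -4 * x * (1 - x ^ 2)
noncomputable def zeta (x : ℝ) : ℝ := eta x ^ 2
noncomputable def z1 (x : ℝ) : ℝ := -8 * x + 24 * x ^ 3 - 24 * x ^ 5 + 8 * x ^ 7
noncomputable def z2 (x : ℝ) : ℝ := -8 + 72 * x ^ 2 - 120 * x ^ 4 + 56 * x ^ 6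
noncomputable def z3 (x : ℝ) : ℝ := 144 * x - 480 * x ^ 3 + 336 * x ^ 5
noncomputable def z4 (x : ℝ) : ℝ := 144 - 1440 * x ^ 2 + 1680 * x ^ 4

lemma d_eta (x : ℝ) : HasDerivAt eta (eta1 x) x :=
  (((hasDerivAt_pow 2 x).const_sub 1).pow 2).congr_deriv (by simp [eta1]; ring)

lemma d_zeta (x : ℝ) : HasDerivAt zeta (z1 x) x :=
  ((d_eta x).pow 2).congr_deriv (by simp [eta, eta1, z1]; ring)

lemma d_z1 (x : ℝ) : HasDerivAt z1 (z2 x) x :=
  ((((((hasDerivAt_id' x).const_mul (-8)).add ((hasDerivAt_pow 3 x).const_mul 24)).sub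
    ((hasDerivAt_pow 5 x).const_mul 24)).add ((hasDerivAt_pow 7 x).const_mul 8))).congr_deriv
    (by simp [z2]; ring)

lemma d_z2 (x : ℝ) : HasDerivAt z2 (z3 x) x :=
  ((((((hasDerivAt_pow 2 x).const_mul 72).const_add (-8)).sub
    ((hasDerivAt_pow 4 x).const_mul 120)).add ((hasDerivAt_pow 6 x).const_mul 56))).congr_deriv
    (by simp [z3]; ring)

lemma d_z3 (x : ℝ) : HasDerivAt z3 (z4 x) x :=
  (((((hasDerivAt_id' x).const_mul 144).sub ((hasDerivAt_pow 3 x).const_mul 480)).add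
    ((hasDerivAt_pow 5 x).const_mul 336))).congr_deriv (by simp [z4]; ring)

lemma deriv_zeta : deriv zeta = z1 := funext fun x => (d_zeta x).deriv
lemma deriv_z1 : deriv z1 = z2 := funext fun x => (d_z1 x).deriv
lemma deriv_z2 : deriv z2 = z3 := funext fun x => (d_z2 x).deriv
lemma deriv_z3 : deriv z3 = z4 := funext fun x => (d_z3 x).deriv

lemma iter2 : iteratedDeriv 2 zeta = z2 := by
  rw [iteratedDeriv_succ, iteratedDeriv_one, deriv_zeta, deriv_z1]

lemma iter4 : iteratedDeriv 4 zeta = z4 := by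
  rw [iteratedDeriv_succ, iteratedDeriv_succ, iter2, deriv_z2, deriv_z3]

lemma cont_zeta : Continuous zeta := by unfold zeta eta; fun_prop
lemma cont_z2 : Continuous z2 := by unfold z2; fun_prop
lemma cont_z4 : Continuous z4 := by unfold z4; fun_prop
lemma cont_eta1 : Continuous eta1 := by unfold eta1; fun_prop

lemma zeta_nonneg (x : ℝ) : 0 ≤ zeta x := sq_nonneg _

lemma Z_pos : 0 < ∫ x in (-1 : ℝ)..1, zeta x := by
  refine intervalIntegral_pos_of_pos_on (cont_zeta.intervalIntegrable _ _) (fun x hx => ?_)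
    (by norm_num)
  have : 0 < 1 - x ^ 2 := by nlinarith [hx.1, hx.2]
  unfold zeta eta; positivity

lemma exists_C {β τ : ℝ} (hβ : 0 < β) (hτ : 0 ≤ τ) : ∃ C, 0 ≤ C ∧ ∀ x ∈ Icc (-1 : ℝ) 1,
    0 ≤ β * z4 x - τ * z2 x + C * zeta x := by
  set b := 384 * β with hb
  set k := 1920 * β + 48 * τ with hk
  have b0 : 0 < b := by positivity
  have k0 : 0 < k := by positivity
  refine ⟨k * (k / b) ^ 3, by positivity, fun x hx => ?_⟩
  set y := 1 - x ^ 2 with hy
  have y0 : 0 ≤ y := by nlinarith [hx.1, hx.2]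
  have y1 : y ≤ 1 := by nlinarith [sq_nonneg x]
  have e : β * z4 x - τ * z2 x + k * (k / b) ^ 3 * zeta x =
      (b - k * y + k * y * (k / b * y) ^ 3) + (1680 * β * y ^ 2 + 48 * τ * (y * (1 - y))
        + 56 * τ * y ^ 3) := by
    simp only [z4, z2, zeta, eta, hy, hb, hk]; ring
  have h1 : 0 ≤ b - k * y + k * y * (k / b * y) ^ 3 := by
    rcases le_total (k * y) b with h | h
    · have : 0 ≤ k * y * (k / b * y) ^ 3 := by positivity
      linarith
    · have h2 : 1 ≤ k / b * y := by rw [div_mul_eq_mul_div, one_le_div b0]; exact h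
      have h3 : 1 ≤ (k / b * y) ^ 3 := one_le_pow₀ h2
      have h4 : 0 ≤ k * y := by positivity
      nlinarith
  have h2 : 0 ≤ 1 - y := by linarith
  rw [e]; positivity

lemma int_A (β τ : ℝ) : ∫ x in (-1 : ℝ)..1, (β * z4 x - τ * z2 x) = 0 := by
  rw [integral_eq_sub_of_hasDerivAt (f := fun x => β * z3 x - τ * z1 x)
    (fun x _ => ((d_z3 x).const_mul β).sub ((d_z1 x).const_mul τ))
    (((cont_z4.const_mul β).sub (cont_z2.const_mul τ)).intervalIntegrable _ _)]
  simp only [z3, z1]; norm_num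

lemma exists_force_const (ε : ℝ) : ∃ c0 : ℝ, 0 < c0 ∧ ∀ (u : ℝ → ℝ) (ψ ψx ψz : ℝ × ℝ → ℝ),
    ContDiffOn ℝ 1 u (Icc (-1) 1) → IsPotential ε u ψ ψx ψz → (∀ x ∈ Icc (-1 : ℝ) 1, -1 < u x) →
    ∫ x in (-1 : ℝ)..1, u x * zeta x ≤ ∫ x in (-1 : ℝ)..1, zeta x →
    c0 ≤ ∫ x in (-1 : ℝ)..1, force ε u ψx ψz x * zeta x := by
  set Z := ∫ x in (-1 : ℝ)..1, zeta x with hZ
  set N := ∫ x in (-1 : ℝ)..1, eta1 x ^ 2 with hN
  have Z0 : 0 < Z := Z_pos
  have N0 : 0 ≤ N := integral_nonneg (by norm_num) fun x _ => sq_nonneg _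
  set Λ := 1 + 4 * (ε ^ 2 * N) / Z with hΛ
  have hq : 0 ≤ 4 * (ε ^ 2 * N) / Z := by positivity
  have Λ1 : 1 ≤ Λ := by linarith
  have hΛZ : ε ^ 2 * N < Λ ^ 2 * Z / 4 := by
    have h1 : Λ * Z = Z + 4 * (ε ^ 2 * N) := by rw [hΛ]; field_simp
    nlinarith [mul_le_mul_of_nonneg_right Λ1 (mul_nonneg (by linarith : (0 : ℝ) ≤ Λ) Z0.le)]
  set κ := Real.exp Λ - 1 with hκ
  have κ0 : 0 < κ := by
    have := Real.add_one_lt_exp (x := Λ) (by linarith)
    linarith
  have hlog : Real.log (1 + κ) = Λ := by rw [hκ, add_sub_cancel, Real.log_exp]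
  refine ⟨2 * Λ * (Λ ^ 2 * Z / 4 - ε ^ 2 * N) / κ ^ 2,
    div_pos (mul_pos (by linarith) (by linarith)) (by positivity), ?_⟩
  intro u ψ ψx ψz hu H hpos hm
  have h := force_lower hu H hpos (η := eta) (η' := eta1) (by unfold eta; fun_prop) d_eta cont_eta1
    (by simp [eta]) (by simp [eta]) κ0 (a := Λ / 2) (by linarith)
  rw [hlog] at h
  have iu : IntervalIntegrable (fun x => u x * zeta x) volume (-1) 1 :=
    (hu.continuousOn.mul cont_zeta.continuousOn).intervalIntegrable_of_Icc (by norm_num)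
  have e : ∫ x in (-1 : ℝ)..1, 2 * (eta x ^ 2 * (3 * (Λ / 2) ^ 2 * Λ - 2 * (Λ / 2) ^ 3 * (1 + u x))
      - ε ^ 2 * eta1 x ^ 2 * Λ) = Λ ^ 3 * Z - Λ ^ 3 / 2 * (∫ x in (-1 : ℝ)..1, u x * zeta x)
        - 2 * ε ^ 2 * Λ * N := by
    have c2 : Continuous fun x => eta1 x ^ 2 := cont_eta1.pow 2
    rw [hZ, hN, ← intervalIntegral.integral_const_mul, ← intervalIntegral.integral_const_mul,
      ← intervalIntegral.integral_const_mul,
      ← intervalIntegral.integral_sub ((cont_zeta.const_mul _).intervalIntegrable _ _)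
        (iu.const_mul _), ← intervalIntegral.integral_sub
        (((cont_zeta.const_mul _).intervalIntegrable _ _).sub (iu.const_mul _))
        ((c2.const_mul _).intervalIntegrable _ _)]
    refine integral_congr fun x _ => ?_
    simp only [zeta]; ring
  rw [e] at h
  rw [div_le_iff₀ (by positivity)]
  have h3 : 0 ≤ Λ ^ 3 / 2 := by positivity
  have h4 := mul_le_mul_of_nonneg_left hm h3
  simp only [zeta] at h4 h ⊢
  nlinarith

theorem main (β τ γ ε : ℝ) (hβ : 0 < β) (hτ : 0 ≤ τ) :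
    ∃ lam0 T0 : ℝ, ∀ lam, lam0 < lam → ∀ (T : ℝ) (u : ℝ → ℝ → ℝ) (ψ ψx ψz : ℝ → ℝ × ℝ → ℝ),
      IsSolutionOn β τ γ ε lam T u ψ ψx ψz → T ≤ T0 := by
  obtain ⟨C, C0, hC⟩ := exists_C hβ hτ
  obtain ⟨c0, c0pos, hc0⟩ := exists_force_const ε
  set Z := ∫ x in (-1 : ℝ)..1, zeta x with hZ
  have Z0 : 0 < Z := Z_pos
  refine ⟨(2 * C * Z + 1) / c0, 2 * Z + 2 * γ ^ 2 + 2, fun lam hlam T u ψ ψx ψz S => ?_⟩
  have hl : 2 * C * Z + 1 < lam * c0 := (div_lt_iff₀ c0pos).1 hlam
  have lam0 : 0 ≤ lam := le_trans (by positivity) hlam.le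
  obtain ⟨m', cm, cm', m0', hd⟩ := S.eqn zeta (by unfold zeta eta; fun_prop) (by simp [zeta, eta])
    (by simp [zeta, eta]) (by rw [deriv_zeta]; simp only [z1]; norm_num)
    (by rw [deriv_zeta]; simp only [z1]; norm_num)
  have iu : ∀ t ∈ Ico 0 T, ∀ {f : ℝ → ℝ}, Continuous f →
      IntervalIntegrable (fun x => u t x * f x) volume (-1) 1 := fun t ht f hf =>
    ((S.reg t ht).continuousOn.mul hf.continuousOn).intervalIntegrable_of_Icc (by norm_num)
  refine ode_bound Z0 cm cm' ?_ m0' (fun t ht => (hd t ht).1) (fun t ht => (hd t ht).2)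
    (fun t ht => ?_) fun t ht hm => ?_
  · rw [moment, integral_congr (g := fun _ => 0) fun x hx => by
      rw [uIcc_of_le (by norm_num)] at hx
      simp [S.init x hx]]
    simp
  · rw [moment, hZ, ← intervalIntegral.integral_neg]
    refine integral_mono_on (by norm_num) (cont_zeta.neg.intervalIntegrable _ _)
      (iu t ht cont_zeta) fun x hx => ?_
    nlinarith [S.above t ht x hx, zeta_nonneg x]
  · have ht' : t ∈ Ico 0 T := ⟨ht.1.le, ht.2⟩
    have h1 := hc0 (u t) (ψ t) (ψx t) (ψz t) (S.reg t ht') (S.pot t ht') (S.above t ht') hm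
    have cA : Continuous fun x => β * z4 x - τ * z2 x :=
      (cont_z4.const_mul β).sub (cont_z2.const_mul τ)
    have h2 : 0 ≤ ∫ x in (-1 : ℝ)..1, ((u t x * (β * z4 x - τ * z2 x) + (β * z4 x - τ * z2 x))
        + (C * (u t x * zeta x) + C * zeta x)) :=
      integral_nonneg (by norm_num) fun x hx => by
        have := mul_nonneg (by linarith [S.above t ht' x hx] : 0 ≤ 1 + u t x) (hC x hx)
        linarith
    rw [intervalIntegral.integral_add ((iu t ht' cA).add (cA.intervalIntegrable _ _))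
      (((iu t ht' cont_zeta).const_mul C).add ((cont_zeta.const_mul C).intervalIntegrable _ _)),
      intervalIntegral.integral_add (iu t ht' cA) (cA.intervalIntegrable _ _),
      intervalIntegral.integral_add ((iu t ht' cont_zeta).const_mul C)
        ((cont_zeta.const_mul C).intervalIntegrable _ _), int_A,
      intervalIntegral.integral_const_mul, intervalIntegral.integral_const_mul] at h2
    rw [iter2, iter4]
    have h3 := mul_le_mul_of_nonneg_left h1 lam0
    have h4 := mul_le_mul_of_nonneg_left hm C0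
    simp only [moment] at h4
    linarith

end Pool.Agent.Lib.MP_cdeac6_an
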