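import Pool.Agent.Lib.MP_cdeac6_an.Graph

namespace Pool.Agent.Lib.MP_cdeac6_an

open Set Filter Topology MeasureTheory intervalIntegral

lemma pointwise_ineq {ε κ a r r0 e e' p q : ℝ} (hκ : 0 < κ) (ha : 0 ≤ a) (hr0 : 0 ≤ r0)
    (hr : r0 ≤ r) (hq : 0 ≤ q) :
    2 * (e ^ 2 * (3 * a ^ 2 * (κ * r * q) - 2 * a ^ 3) - ε ^ 2 * e' ^ 2 * (κ * r * q)) ≤
      κ ^ 2 * (4 * ε ^ 2 * e * e' * (r ^ 2 - r0 ^ 2) * p * q +
        e ^ 2 * (2 * κ * r ^ 3) * q * (ε ^ 2 * p ^ 2 + q ^ 2)) := by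
  have hr' : 0 ≤ r := hr0.trans hr
  have hy : 0 ≤ κ * r * q := by positivity
  have h1 : 0 ≤ (κ * r * q - a) ^ 2 * (κ * r * q + 2 * a) := by positivity
  have h2 : 0 ≤ κ ^ 2 * r ^ 3 * (e * p) ^ 2 + 2 * κ * (r ^ 2 - r0 ^ 2) * e' * (e * p)
      + r * e' ^ 2 := by
    rcases hr'.eq_or_lt with h | h
    · have : r0 = 0 := le_antisymm (h ▸ hr) hr0
      rw [← h, this]; simp
    · have h3 : 0 ≤ r ^ 4 - (r ^ 2 - r0 ^ 2) ^ 2 := by
        have : r0 ^ 2 ≤ r ^ 2 := by gcongr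
        nlinarith [sq_nonneg r0, sq_nonneg r]
      have h4 : r ^ 3 * (κ ^ 2 * r ^ 3 * (e * p) ^ 2 + 2 * κ * (r ^ 2 - r0 ^ 2) * e' * (e * p)
          + r * e' ^ 2) = (κ * r ^ 3 * (e * p) + (r ^ 2 - r0 ^ 2) * e') ^ 2
            + (r ^ 4 - (r ^ 2 - r0 ^ 2) ^ 2) * e' ^ 2 := by ring
      have h5 : 0 ≤ r ^ 3 * (κ ^ 2 * r ^ 3 * (e * p) ^ 2 + 2 * κ * (r ^ 2 - r0 ^ 2) * e' * (e * p)
          + r * e' ^ 2) := by rw [h4]; positivity
      exact (mul_nonneg_iff_of_pos_left (by positivity)).1 h5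
  have h6 := mul_nonneg (mul_nonneg (mul_nonneg (sq_nonneg ε) hq) hκ.le) h2
  have h7 := mul_nonneg (sq_nonneg e) h1
  nlinarith

section
variable {ε : ℝ} {u : ℝ → ℝ} {ψ ψx ψz : ℝ × ℝ → ℝ} (hu : ContDiffOn ℝ 1 u (Icc (-1) 1))
  (H : IsPotential ε u ψ ψx ψz)
include hu H

lemma dAt {p : ℝ × ℝ} (hp : p ∈ dom u) : DifferentiableAt ℝ ψ p :=
  (H.smooth.contDiffAt ((isOpen_dom hu.continuousOn).mem_nhds hp)).differentiableAt (by norm_num)

lemma cdx : ContDiffOn ℝ 1 ψx (dom u) :=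
  ((H.smooth.fderiv_of_isOpen (isOpen_dom hu.continuousOn) (m := 1) (by norm_num)).clm_apply
    contDiffOn_const).congr H.dx

lemma cdz : ContDiffOn ℝ 1 ψz (dom u) :=
  ((H.smooth.fderiv_of_isOpen (isOpen_dom hu.continuousOn) (m := 1) (by norm_num)).clm_apply
    contDiffOn_const).congr H.dz

lemma dAtx {p : ℝ × ℝ} (hp : p ∈ dom u) : DifferentiableAt ℝ ψx p :=
  ((cdx hu H).contDiffAt ((isOpen_dom hu.continuousOn).mem_nhds hp)).differentiableAt one_ne_zero

lemma dAtz {p : ℝ × ℝ} (hp : p ∈ dom u) : DifferentiableAt ℝ ψz p :=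
  ((cdz hu H).contDiffAt ((isOpen_dom hu.continuousOn).mem_nhds hp)).differentiableAt one_ne_zero

lemma symm2 {p : ℝ × ℝ} (hp : p ∈ dom u) : fderiv ℝ ψz p (1, 0) = fderiv ℝ ψx p (0, 1) := by
  have hn := (isOpen_dom hu.continuousOn).mem_nhds hp
  have hc := H.smooth.contDiffAt hn
  have hs := hc.isSymmSndFDerivAt (by simp)
  have hd : DifferentiableAt ℝ (fderiv ℝ ψ) p :=
    (hc.fderiv_right (m := 1) (by norm_num)).differentiableAt one_ne_zero
  have ex : ψx =ᶠ[𝓝 p] fun q => fderiv ℝ ψ q (1, 0) := by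
    filter_upwards [hn] with q hq using H.dx q hq
  have ez : ψz =ᶠ[𝓝 p] fun q => fderiv ℝ ψ q (0, 1) := by
    filter_upwards [hn] with q hq using H.dz q hq
  rw [ex.fderiv_eq, ez.fderiv_eq, fderiv_clm_apply hd (differentiableAt_const _),
    fderiv_clm_apply hd (differentiableAt_const _)]
  simpa using hs.eq (1, 0) (0, 1)

lemma hx1 {p : ℝ × ℝ} (hp : p ∈ dom u) : HasDerivAt (fun s => ψ (s, p.2)) (ψx p) p.1 := by
  rw [H.dx p hp]; exact hasDerivAt_fst (dAt hu H hp)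

lemma hz1 {p : ℝ × ℝ} (hp : p ∈ dom u) : HasDerivAt (fun s => ψ (p.1, s)) (ψz p) p.2 := by
  rw [H.dz p hp]; exact hasDerivAt_snd (dAt hu H hp)

variable (hpos : ∀ x ∈ Icc (-1 : ℝ) 1, -1 < u x)
include hpos

omit hu in
lemma bc_bot {x : ℝ} (hx : x ∈ Icc (-1 : ℝ) 1) : ψ (x, -1) = 0 := by
  rw [H.bc (x, -1) ⟨⟨hx, le_rfl, (hpos x hx).le⟩, fun h => lt_irrefl _ h.2.1⟩]; simp

omit hu in
lemma bc_top {x : ℝ} (hx : x ∈ Icc (-1 : ℝ) 1) : ψ (x, u x) = 1 := by
  rw [H.bc (x, u x) ⟨⟨hx, (hpos x hx).le, le_rfl⟩, fun h => lt_irrefl _ h.2.2⟩]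
  have := hpos x hx
  exact div_self (by simp only; linarith)

lemma psi_nonneg : ∀ p ∈ cdom u, 0 ≤ ψ p := by
  have hK : IsCompact (cdom u) := by rw [← cdomS_zero]; exact isCompact_cdomS hu.continuousOn 0
  refine weak_min hK (isOpen_dom hu.continuousOn) (dom_sub u) H.cont (fun p hp => hx1 hu H hp)
    (fun p hp => hz1 hu H hp) (fun p hp => hasDerivAt_fst (dAtx hu H hp))
    (fun p hp => hasDerivAt_snd (dAtz hu H hp)) H.pde fun p hp => ?_
  rw [H.bc p hp]
  exact div_nonneg (by linarith [hp.1.2.1]) (by linarith [hpos _ hp.1.1])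

lemma psi_le_one : ∀ p ∈ cdom u, ψ p ≤ 1 := by
  have hK : IsCompact (cdom u) := by rw [← cdomS_zero]; exact isCompact_cdomS hu.continuousOn 0
  have := weak_min (ε := ε) (φ := fun p => 1 - ψ p) hK (isOpen_dom hu.continuousOn) (dom_sub u)
    (continuousOn_const.sub H.cont) (fun p hp => (hx1 hu H hp).const_sub 1)
    (fun p hp => (hz1 hu H hp).const_sub 1) (fun p hp => (hasDerivAt_fst (dAtx hu H hp)).neg)
    (fun p hp => (hasDerivAt_snd (dAtz hu H hp)).neg)
    (fun p hp => by have := H.pde p hp; linarith) fun p hp => by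
      rw [H.bc p hp, sub_nonneg, div_le_one (by linarith [hpos _ hp.1.1])]
      linarith [hp.1.2.2]
  intro p hp
  linarith [this p hp]

lemma psi_shift {σ : ℝ} (hσ : 0 ≤ σ) : ∀ p ∈ cdomS u σ, 0 ≤ ψ (p.1, p.2 + σ) - ψ p := by
  have m1 : ∀ p ∈ cdomS u σ, p ∈ cdom u := fun p hp => ⟨hp.1, hp.2.1, by linarith [hp.2.2]⟩
  have m2 : ∀ p ∈ cdomS u σ, (p.1, p.2 + σ) ∈ cdom u := fun p hp =>
    ⟨hp.1, by simp only; linarith [hp.2.1], hp.2.2⟩
  have n1 : ∀ p ∈ domS u σ, p ∈ dom u := fun p hp => ⟨hp.1, hp.2.1, by linarith [hp.2.2]⟩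
  have n2 : ∀ p ∈ domS u σ, (p.1, p.2 + σ) ∈ dom u := fun p hp =>
    ⟨hp.1, by simp only; linarith [hp.2.1], hp.2.2⟩
  refine weak_min (ε := ε) (φ := fun p => ψ (p.1, p.2 + σ) - ψ p)
    (φx := fun p => ψx (p.1, p.2 + σ) - ψx p) (φz := fun p => ψz (p.1, p.2 + σ) - ψz p)
    (φxx := fun p => fderiv ℝ ψx (p.1, p.2 + σ) (1, 0) - fderiv ℝ ψx p (1, 0))
    (φzz := fun p => fderiv ℝ ψz (p.1, p.2 + σ) (0, 1) - fderiv ℝ ψz p (0, 1))
    (isCompact_cdomS hu.continuousOn σ) (isOpen_domS hu.continuousOn σ) (domS_sub u σ)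
    ((H.cont.comp (by fun_prop) m2).sub (H.cont.mono m1))
    (fun p hp => (hx1 hu H (n2 p hp)).sub (hx1 hu H (n1 p hp)))
    (fun p hp => ((hz1 hu H (n2 p hp)).comp_add_const p.2 σ).sub (hz1 hu H (n1 p hp)))
    (fun p hp => (hasDerivAt_fst (dAtx hu H (n2 p hp))).sub (hasDerivAt_fst (dAtx hu H (n1 p hp))))
    (fun p hp => ((hasDerivAt_snd (dAtz hu H (n2 p hp))).comp_add_const p.2 σ).sub
      (hasDerivAt_snd (dAtz hu H (n1 p hp))))
    (fun p hp => by
      have a := H.pde _ (n1 p hp)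
      have b := H.pde _ (n2 p hp)
      linarith) ?_
  rintro ⟨x, z⟩ ⟨hp, hn⟩
  simp only
  by_cases hx : x ∈ Ioo (-1 : ℝ) 1
  · by_cases hz : -1 < z
    · have h3 : z + σ = u x := le_antisymm hp.2.2 (not_lt.1 fun h => hn ⟨hx, hz, h⟩)
      rw [h3, bc_top H hpos hp.1]
      linarith [psi_le_one hu H hpos _ (m1 _ hp)]
    · have h3 : z = -1 := le_antisymm (not_lt.1 hz) hp.2.1
      have h4 := psi_nonneg hu H hpos _ (m2 _ hp)
      subst h3
      rw [bc_bot H hpos hp.1]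
      simpa using h4
  · rw [H.bc _ ⟨m2 _ hp, fun h => hx h.1⟩, H.bc _ ⟨m1 _ hp, fun h => hx h.1⟩, ← sub_div]
    exact div_nonneg (by simp only; linarith) (by linarith [hpos _ hp.1])

lemma psiz_nonneg {p : ℝ × ℝ} (hp : p ∈ dom u) : 0 ≤ ψz p := by
  have ht := (hasDerivAt_iff_tendsto_slope_left_right.1 (hz1 hu H hp)).2
  refine ge_of_tendsto ht ?_
  filter_upwards [Ioo_mem_nhdsGT hp.2.2] with s hs
  rw [slope_def_field]
  have := psi_shift hu H hpos (σ := s - p.2) (by linarith [hs.1]) p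
    ⟨Ioo_subset_Icc_self hp.1, hp.2.1.le, by linarith [hs.2]⟩
  rw [add_sub_cancel] at this
  exact div_nonneg this (by linarith [hs.1])

lemma force_cont : ContinuousOn (force ε u ψx ψz) (Icc (-1) 1) := by
  have hm : MapsTo (fun x => (x, u x)) (Icc (-1 : ℝ) 1) (cdom u) := fun x hx =>
    ⟨hx, (hpos x hx).le, le_rfl⟩
  have hc : ContinuousOn (fun x => (x, u x)) (Icc (-1 : ℝ) 1) :=
    continuousOn_id.prodMk hu.continuousOn
  exact (((H.contx.comp hc hm).pow 2).const_mul _).add ((H.contz.comp hc hm).pow 2)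

lemma force_lower {η η' : ℝ → ℝ} (hη : ContDiff ℝ 1 η) (hη' : ∀ x, HasDerivAt η (η' x) x)
    (cη' : Continuous η') (e1 : η 1 = 0) (e2 : η (-1) = 0) {κ a : ℝ} (hκ : 0 < κ) (ha : 0 ≤ a) :
    ∫ x in (-1 : ℝ)..1, 2 * (η x ^ 2 * (3 * a ^ 2 * Real.log (1 + κ) - 2 * a ^ 3 * (1 + u x))
      - ε ^ 2 * η' x ^ 2 * Real.log (1 + κ)) ≤
      κ ^ 2 * ∫ x in (-1 : ℝ)..1, force ε u ψx ψz x * η x ^ 2 := by
  set r : ℝ × ℝ → ℝ := fun p => (1 + κ * (1 - ψ p))⁻¹ with hr
  set r0 : ℝ := (1 + κ)⁻¹ with hr0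
  have wpos : ∀ p ∈ cdom u, 0 < 1 + κ * (1 - ψ p) := fun p hp => by
    have := mul_nonneg hκ.le (sub_nonneg.2 (psi_le_one hu H hpos p hp))
    linarith
  have rge : ∀ p ∈ cdom u, r0 ≤ r p := fun p hp => by
    refine inv_anti₀ (wpos p hp) ?_
    have := mul_nonneg hκ.le (psi_nonneg hu H hpos p hp)
    linarith
  have r0pos : 0 < r0 := by positivity
  have cr : ContinuousOn r (cdom u) :=
    (continuousOn_const.add ((continuousOn_const.sub H.cont).const_mul κ)).inv₀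
      fun p hp => (wpos p hp).ne'
  have dr : ContDiffOn ℝ 1 r (dom u) :=
    (contDiffOn_const.add (contDiffOn_const.mul (contDiffOn_const.sub
      (H.smooth.of_le (by norm_num))))).inv fun p hp => (wpos p (dom_sub u hp)).ne'
  have cη : ContinuousOn (fun p : ℝ × ℝ => η p.1) (cdom u) :=
    (hη.continuous.comp continuous_fst).continuousOn
  have cη1 : ContinuousOn (fun p : ℝ × ℝ => η' p.1) (cdom u) :=
    (cη'.comp continuous_fst).continuousOn
  have dη : ContDiffOn ℝ 1 (fun p : ℝ × ℝ => η p.1) (dom u) := (hη.comp contDiff_fst).contDiffOn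
  set F1 : ℝ × ℝ → ℝ := fun p => 2 * ε ^ 2 * (η p.1 ^ 2 * (r p ^ 2 - r0 ^ 2) * ψx p * ψz p)
    with hF1
  set F2 : ℝ × ℝ → ℝ := fun p => η p.1 ^ 2 * (r p ^ 2 - r0 ^ 2) * (ψz p ^ 2 - ε ^ 2 * ψx p ^ 2)
    with hF2
  set I : ℝ × ℝ → ℝ := fun p => 4 * ε ^ 2 * η p.1 * η' p.1 * (r p ^ 2 - r0 ^ 2) * ψx p * ψz p +
    η p.1 ^ 2 * (2 * κ * r p ^ 3) * ψz p * (ε ^ 2 * ψx p ^ 2 + ψz p ^ 2) with hI
  have c1 : ContinuousOn F1 (cdom u) :=
    ((((cη.pow 2).mul ((cr.pow 2).sub continuousOn_const)).mul H.contx).mul H.contz).const_mul _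
  have c2 : ContinuousOn F2 (cdom u) :=
    ((cη.pow 2).mul ((cr.pow 2).sub continuousOn_const)).mul
      ((H.contz.pow 2).sub ((H.contx.pow 2).const_mul _))
  have cI : ContinuousOn I (cdom u) :=
    (((((cη.const_mul _).mul cη1).mul ((cr.pow 2).sub continuousOn_const)).mul H.contx).mul
      H.contz).add ((((cη.pow 2).mul ((cr.pow 3).const_mul _)).mul H.contz).mul
        (((H.contx.pow 2).const_mul _).add (H.contz.pow 2)))
  have d1 : ContDiffOn ℝ 1 F1 (dom u) :=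
    contDiffOn_const.mul ((((dη.pow 2).mul ((dr.pow 2).sub contDiffOn_const)).mul (cdx hu H)).mul
      (cdz hu H))
  have d2 : ContDiffOn ℝ 1 F2 (dom u) :=
    ((dη.pow 2).mul ((dr.pow 2).sub contDiffOn_const)).mul
      (((cdz hu H).pow 2).sub (contDiffOn_const.mul ((cdx hu H).pow 2)))
  have hdiv : ∀ p ∈ dom u, fderiv ℝ F1 p (1, 0) + fderiv ℝ F2 p (0, 1) = I p := by
    intro p hp
    have hn := (isOpen_dom hu.continuousOn).mem_nhds hp
    have w0 := (wpos p (dom_sub u hp)).ne'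
    have rx : HasDerivAt (fun s => r (s, p.2)) (κ * r p ^ 2 * ψx p) p.1 := by
      refine (((((hx1 hu H hp).const_sub 1).const_mul κ).const_add 1).inv w0).congr_deriv ?_
      simp only [hr]; field_simp
    have rz : HasDerivAt (fun s => r (p.1, s)) (κ * r p ^ 2 * ψz p) p.2 := by
      refine (((((hz1 hu H hp).const_sub 1).const_mul κ).const_add 1).inv w0).congr_deriv ?_
      simp only [hr]; field_simp
    have a1 := (hasDerivAt_fst ((d1.contDiffAt hn).differentiableAt one_ne_zero)).unique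
      (((((((hη' p.1).pow 2).mul ((rx.pow 2).sub_const (r0 ^ 2))).mul
        (hasDerivAt_fst (dAtx hu H hp))).mul (hasDerivAt_fst (dAtz hu H hp)))).const_mul
          (2 * ε ^ 2))
    have a2 := (hasDerivAt_snd ((d2.contDiffAt hn).differentiableAt one_ne_zero)).unique
      ((((rz.pow 2).sub_const (r0 ^ 2)).const_mul (η p.1 ^ 2)).mul
        (((hasDerivAt_snd (dAtz hu H hp)).pow 2).sub
          (((hasDerivAt_snd (dAtx hu H hp)).pow 2).const_mul (ε ^ 2))))
    have pde := H.pde p hp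
    have sy := symm2 hu H hp
    rw [a1, a2]
    simp only [hI, Pi.mul_apply, Pi.pow_apply, Prod.mk.eta, sy]
    push_cast
    linear_combination (2 * η p.1 ^ 2 * (r p ^ 2 - r0 ^ 2) * ψz p) * pde
  have hdivthm := graph_div hu hpos c1 c2 cI d1 d2 hdiv
    (fun z => by simp [hF1, e1, e2])
    (fun x hx => by simp [hF2, hr, hr0, bc_bot H hpos hx])
  have hm : MapsTo (fun x => (x, u x)) (Icc (-1 : ℝ) 1) (cdom u) := fun x hx =>
    ⟨hx, (hpos x hx).le, le_rfl⟩
  have hc : ContinuousOn (fun x => (x, u x)) (Icc (-1 : ℝ) 1) :=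
    continuousOn_id.prodMk hu.continuousOn
  have up : ∫ x in (-1 : ℝ)..1, (F2 (x, u x) - derivWithin u (Icc (-1) 1) x * F1 (x, u x)) ≤
      ∫ x in (-1 : ℝ)..1, force ε u ψx ψz x * η x ^ 2 := by
    refine integral_mono_on_of_le_Ioo (by norm_num)
      (((c2.comp hc hm).sub ((cont_du hu).mul (c1.comp hc hm))).intervalIntegrable_of_Icc
        (by norm_num))
      (((force_cont hu H hpos).mul (hη.continuous.pow 2).continuousOn).intervalIntegrable_of_Icc
        (by norm_num)) fun x hx => ?_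
    have tg := top_tangent hu hpos H.cont H.contx H.contz
      (fun p hp => (dAt hu H hp).differentiableWithinAt) H.dx H.dz
      (fun x hx => bc_top H hpos hx) hx
    have r1 : r (x, u x) = 1 := by simp [hr, bc_top H hpos (Ioo_subset_Icc_self hx)]
    simp only [hF1, hF2, force, r1]
    have hp : ψx (x, u x) = -(derivWithin u (Icc (-1) 1) x * ψz (x, u x)) := by linarith
    have := mul_nonneg (mul_nonneg (sq_nonneg (η x)) (sq_nonneg r0))
      (add_nonneg (mul_nonneg (sq_nonneg ε) (sq_nonneg (ψx (x, u x)))) (sq_nonneg (ψz (x, u x))))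
    rw [hp] at this ⊢
    nlinarith
  refine le_trans ?_ (mul_le_mul_of_nonneg_left up (sq_nonneg κ))
  rw [← hdivthm, ← intervalIntegral.integral_const_mul]
  have kI := cont_comp hu hpos cI
  have kr := cont_comp hu hpos cr
  have kz := cont_comp hu hpos H.contz
  have kψ := cont_comp hu hpos H.cont
  have ku : Continuous fun x => u (cl x) := cont_uc hu.continuousOn
  refine integral_mono_on_of_le_Ioo (by norm_num) ?_ ?_ fun x hx => ?_
  · refine ContinuousOn.intervalIntegrable_of_Icc (by norm_num) ?_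
    have := hη.continuous
    have := hu.continuousOn
    fun_prop
  · refine Continuous.intervalIntegrable (Continuous.const_mul ?_ _) _ _
    have kJ : Continuous fun p : ℝ × ℝ => (1 + u (cl p.1)) * I (Phi u p) :=
      (continuous_const.add (ku.comp continuous_fst)).mul kI
    exact cont_param (f := fun x y => (1 + u (cl x)) * I (Phi u (x, y))) kJ
      continuous_const continuous_const
  · have hx' := Ioo_subset_Icc_self hx
    set Y : ℝ → ℝ := fun y => (1 + u x) * (κ * r (Phi u (x, y)) * ψz (Phi u (x, y))) with hY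
    have cY : Continuous Y :=
      (((kr.comp (Continuous.prodMk_right x)).const_mul κ).mul
        (kz.comp (Continuous.prodMk_right x))).const_mul _
    have iY : ∫ y in (0 : ℝ)..1, Y y = Real.log (1 + κ) := by
      rw [integral_eq_sub_of_hasDerivAt_of_le (f := fun y => -Real.log (1 + κ * (1 - ψ (Phi u (x, y)))))
        zero_le_one ?_ ?_ (cY.intervalIntegrable _ _)]
      · rw [Phi_eq u hx' (by norm_num), Phi_eq u hx' (by norm_num)]
        simp [bc_top H hpos hx', bc_bot H hpos hx']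
      · refine (Continuous.log ?_ fun y => (wpos _ (Phi_mem hpos _)).ne').neg.continuousOn
        exact continuous_const.add ((continuous_const.sub
          (kψ.comp (Continuous.prodMk_right x))).const_mul κ)
      · intro y hy
        have hm : Phi u (x, y) ∈ dom u := by
          rw [Phi_eq u hx' (Ioo_subset_Icc_self hy)]; exact mem_dom hpos hx hy
        have w0 := (wpos _ (dom_sub u hm)).ne'
        have := deriv_Phi_snd hu hpos hx hy (F := ψ) fun p hp => (dAt hu H hp).differentiableWithinAt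
        refine (((((this.const_sub 1).const_mul κ).const_add 1).log w0).neg).congr_deriv ?_
        simp only [hY, hr, ← H.dz _ hm]
        field_simp
    have e : 2 * (η x ^ 2 * (3 * a ^ 2 * Real.log (1 + κ) - 2 * a ^ 3 * (1 + u x))
        - ε ^ 2 * η' x ^ 2 * Real.log (1 + κ)) =
        ∫ y in (0 : ℝ)..1, ((2 * (η x ^ 2 * (3 * a ^ 2) - ε ^ 2 * η' x ^ 2)) * Y y
          - 4 * η x ^ 2 * a ^ 3 * (1 + u x)) := by
      rw [intervalIntegral.integral_sub ((cY.const_mul _).intervalIntegrable _ _)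
        intervalIntegrable_const, intervalIntegral.integral_const_mul, iY]
      simp; ring
    rw [e, ← intervalIntegral.integral_const_mul]
    refine integral_mono_on_of_le_Ioo zero_le_one
      (((cY.const_mul _).sub continuous_const).intervalIntegrable _ _)
      ((((kI.comp (Continuous.prodMk_right x)).const_mul _).const_mul _).intervalIntegrable _ _)
      fun y hy => ?_
    have hm : Phi u (x, y) ∈ dom u := by
      rw [Phi_eq u hx' (Ioo_subset_Icc_self hy)]; exact mem_dom hpos hx hy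
    have pw := pointwise_ineq (ε := ε) (e := η x) (e' := η' x) (p := ψx (Phi u (x, y))) hκ ha
      r0pos.le (rge _ (dom_sub u hm)) (psiz_nonneg hu H hpos hm)
    have hL : 0 ≤ 1 + u x := by linarith [hpos x hx']
    have := mul_le_mul_of_nonneg_left pw hL
    have p1 : (Phi u (x, y)).1 = x := by simp [Phi, cl_eq hx']
    simp only [hY, hI, cl_eq hx', p1]
    linarith

end

end Pool.Agent.Lib.MP_cdeac6_an
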